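import Pool.Agent.H44R2.Stk.Defs

/-!
# Stack-sorting CLT, task T5: the zero of the entire function
-/

set_option autoImplicit false

namespace Pool.Agent.H379R2.Stk

open Finset Pool.Agent.H44R2.Stk

theorem pow_sub_le {x y : ℂ} (hx : ‖x‖ ≤ 2) (hy : ‖y‖ ≤ 2) (n : ℕ) :
    ‖x ^ (n + 1) - y ^ (n + 1)‖ ≤ (n + 1) * 2 ^ n * ‖x - y‖ := by
  induction n with
  | zero => simp
  | succ n ih =>
    have e : x ^ (n + 1 + 1) - y ^ (n + 1 + 1) =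
        x ^ (n + 1) * (x - y) + (x ^ (n + 1) - y ^ (n + 1)) * y := by ring
    rw [e]
    have h1 : ‖x ^ (n + 1)‖ ≤ 2 ^ (n + 1) := by
      rw [norm_pow]
      exact pow_le_pow_left₀ (norm_nonneg _) hx _
    have h0 : 0 ≤ ‖x - y‖ := norm_nonneg _
    calc ‖x ^ (n + 1) * (x - y) + (x ^ (n + 1) - y ^ (n + 1)) * y‖
        ≤ ‖x ^ (n + 1) * (x - y)‖ + ‖(x ^ (n + 1) - y ^ (n + 1)) * y‖ := norm_add_le _ _
      _ = ‖x ^ (n + 1)‖ * ‖x - y‖ + ‖x ^ (n + 1) - y ^ (n + 1)‖ * ‖y‖ := by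
          rw [norm_mul, norm_mul]
      _ ≤ 2 ^ (n + 1) * ‖x - y‖ + ((n + 1) * 2 ^ n * ‖x - y‖) * 2 := by
          apply add_le_add
          · exact mul_le_mul_of_nonneg_right h1 h0
          · exact mul_le_mul ih hy (norm_nonneg _) (by positivity)
      _ = _ := by push_cast; ring

/-- the exponential terms -/
noncomputable def ex (n : ℕ) : ℝ := 8 ^ n / (n.factorial : ℝ)

theorem ex_nonneg (n : ℕ) : 0 ≤ ex n := by unfold ex; positivity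

theorem summable_ex (k : ℕ) : Summable fun n => ex (n + k) :=
  (summable_nat_add_iff k).2 (Real.summable_pow_div_factorial 8)

/-- tail of the series -/
noncomputable def RR (φ : ℕ → ℂ) (x : ℂ) : ℂ := ∑' n, φ (n + 2) * x ^ (n + 2)

theorem term_le {t : ℂ} {φ : ℕ → ℂ} (h : Phi t φ) {x : ℂ} (hx : ‖x‖ ≤ 2) (n : ℕ) :
    ‖φ (n + 2) * x ^ (n + 2)‖ ≤ 2 * ‖t‖ * ex (n + 2) := by
  rw [norm_mul, norm_pow]
  have h1 := h.p2 (n + 2) (by omega)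
  have h2 : ‖x‖ ^ (n + 2) ≤ 2 ^ (n + 2) := pow_le_pow_left₀ (norm_nonneg _) hx _
  calc ‖φ (n + 2)‖ * ‖x‖ ^ (n + 2)
      ≤ (2 * ‖t‖ * 4 ^ (n + 2) / ((n + 2).factorial : ℝ)) * 2 ^ (n + 2) :=
        mul_le_mul h1 h2 (by positivity) (by positivity)
    _ = 2 * ‖t‖ * ex (n + 2) := by
        unfold ex
        rw [show (8 : ℝ) = 4 * 2 by norm_num, mul_pow]
        ring

theorem RR_hasSum {t : ℂ} {φ : ℕ → ℂ} (h : Phi t φ) {x : ℂ} (hx : ‖x‖ ≤ 2) :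
    Summable (fun n => φ (n + 2) * x ^ (n + 2)) :=
  Summable.of_norm_bounded ((summable_ex 2).mul_left _) (term_le h hx)

theorem RR_le {t : ℂ} {φ : ℕ → ℂ} (h : Phi t φ) {x : ℂ} (hx : ‖x‖ ≤ 2) :
    ‖RR φ x‖ ≤ 2 * ‖t‖ * ∑' n, ex (n + 2) := by
  unfold RR
  rw [← tsum_mul_left]
  exact tsum_of_norm_bounded ((summable_ex 2).mul_left _).hasSum (term_le h hx)

theorem RR_lip {t : ℂ} {φ : ℕ → ℂ} (h : Phi t φ) {x y : ℂ} (hx : ‖x‖ ≤ 2) (hy : ‖y‖ ≤ 2) :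
    ‖RR φ x - RR φ y‖ ≤ 8 * ‖t‖ * (∑' n, ex (n + 1)) * ‖x - y‖ := by
  have hb : ∀ n, ‖φ (n + 2) * x ^ (n + 2) - φ (n + 2) * y ^ (n + 2)‖ ≤
      (8 * ‖t‖ * ‖x - y‖) * ex (n + 1) := by
    intro n
    rw [← mul_sub, norm_mul]
    have h1 := h.p2 (n + 2) (by omega)
    have h2 := pow_sub_le hx hy (n + 1)
    have h3 : 0 ≤ ‖x - y‖ := norm_nonneg _
    calc ‖φ (n + 2)‖ * ‖x ^ (n + 2) - y ^ (n + 2)‖
        ≤ (2 * ‖t‖ * 4 ^ (n + 2) / ((n + 2).factorial : ℝ)) *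
          (((n + 1 : ℕ) + 1) * 2 ^ (n + 1) * ‖x - y‖) :=
          mul_le_mul h1 h2 (norm_nonneg _) (by positivity)
      _ = (8 * ‖t‖ * ‖x - y‖) * ex (n + 1) := by
          unfold ex
          rw [Nat.factorial_succ (n + 1), show (8 : ℝ) = 4 * 2 by norm_num, mul_pow]
          push_cast
          have : ((n : ℝ) + 1 + 1) ≠ 0 := by positivity
          have h4 : ((n + 1).factorial : ℝ) ≠ 0 := by positivity
          field_simp
          ring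
  unfold RR
  rw [← (RR_hasSum h hx).tsum_sub (RR_hasSum h hy)]
  have h5 := tsum_of_norm_bounded ((summable_ex 1).mul_left (8 * ‖t‖ * ‖x - y‖)).hasSum hb
  rw [tsum_mul_left] at h5
  calc _ ≤ 8 * ‖t‖ * ‖x - y‖ * ∑' n, ex (n + 1) := h5
    _ = _ := by ring

theorem exists_rho : ∃ δ > 0, ∃ C > 0, ∀ t : ℂ, ‖t‖ ≤ δ → ∀ φ : ℕ → ℂ, Phi t φ →
    ∃ ρ : ℂ, ‖ρ - 1‖ ≤ C * ‖t‖ ∧ HasSum (fun n => φ n * ρ ^ n) 0 := by
  obtain ⟨E, hE⟩ : ∃ E : ℝ, E = ∑' n, ex (n + 2) := ⟨_, rfl⟩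
  obtain ⟨E1, hE1⟩ : ∃ E1 : ℝ, E1 = ∑' n, ex (n + 1) := ⟨_, rfl⟩
  have hE0 : 0 ≤ E := by rw [hE]; exact tsum_nonneg fun n => ex_nonneg _
  have hE10 : 0 ≤ E1 := by rw [hE1]; exact tsum_nonneg fun n => ex_nonneg _
  refine ⟨1 / (100 * (E + E1 + 1)), by positivity, 2 * (2 * E + 1), by positivity, ?_⟩
  intro t ht φ hφ
  have ht1 : ‖t‖ * (E + E1 + 1) ≤ 1 / 100 := by
    rw [le_div_iff₀ (by positivity)] at ht
    linarith
  have ht0 : 0 ≤ ‖t‖ := norm_nonneg t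
  have hE2 : 0 ≤ ‖t‖ * E := by positivity
  have hE3 : 0 ≤ ‖t‖ * E1 := by positivity
  have hexp : ‖t‖ * (E + E1 + 1) = ‖t‖ * E + ‖t‖ * E1 + ‖t‖ := by ring
  rw [hexp] at ht1
  have h1t : 1 / 2 ≤ ‖1 + t‖ := by
    have := norm_sub_le (1 + t) t
    rw [add_sub_cancel_right, norm_one] at this
    linarith
  have h1t0 : 0 < ‖1 + t‖ := by linarith
  have h1tne : 1 + t ≠ 0 := norm_pos_iff.1 h1t0
  obtain ⟨f, hf⟩ : ∃ f : ℂ → ℂ, f = fun x => (1 + RR φ x) / (1 + t) := ⟨_, rfl⟩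
  have hball : ∀ x ∈ Metric.closedBall (1 : ℂ) (1 / 2), ‖x‖ ≤ 2 := by
    intro x hx
    rw [Metric.mem_closedBall, dist_eq_norm] at hx
    have := norm_add_le (x - 1) 1
    rw [sub_add_cancel, norm_one] at this
    linarith
  have hf1 : ∀ x ∈ Metric.closedBall (1 : ℂ) (1 / 2), ‖f x - 1‖ ≤ 2 * (2 * E + 1) * ‖t‖ := by
    intro x hx
    have h2 : f x - 1 = (RR φ x - t) / (1 + t) := by
      rw [hf]
      simp only
      rw [div_sub_one h1tne]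
      congr 1
      ring
    rw [h2, norm_div, div_le_iff₀ h1t0]
    have h3 := norm_sub_le (RR φ x) t
    have h4 := RR_le hφ (hball x hx)
    rw [← hE] at h4
    have h5 : ‖RR φ x - t‖ ≤ (2 * E + 1) * ‖t‖ := by linarith
    have h6 : 0 ≤ (2 * E + 1) * ‖t‖ := by positivity
    calc ‖RR φ x - t‖ ≤ (2 * E + 1) * ‖t‖ := h5
      _ = (2 * ((2 * E + 1) * ‖t‖)) * (1 / 2) := by ring
      _ ≤ (2 * ((2 * E + 1) * ‖t‖)) * ‖1 + t‖ := mul_le_mul_of_nonneg_left h1t (by positivity)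
      _ = _ := by ring
  have hmaps : Set.MapsTo f (Metric.closedBall (1 : ℂ) (1 / 2)) (Metric.closedBall (1 : ℂ) (1 / 2)) := by
    intro x hx
    rw [Metric.mem_closedBall, dist_eq_norm]
    refine (hf1 x hx).trans ?_
    have : 2 * (2 * E + 1) * ‖t‖ = 4 * (‖t‖ * E) + 2 * ‖t‖ := by ring
    rw [this]
    linarith
  have hcontr : ContractingWith (1 / 2) (hmaps.restrict f _ _) := by
    refine ⟨by rw [← NNReal.coe_lt_coe]; norm_num, LipschitzWith.of_dist_le_mul ?_⟩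
    rintro ⟨x, hx⟩ ⟨y, hy⟩
    rw [Subtype.dist_eq, Subtype.dist_eq, dist_eq_norm, dist_eq_norm]
    simp only [Set.MapsTo.val_restrict_apply]
    have h2 : f x - f y = (RR φ x - RR φ y) / (1 + t) := by
      rw [hf]
      simp only
      rw [← sub_div]
      congr 1
      ring
    rw [h2, norm_div, div_le_iff₀ h1t0]
    have h3 := RR_lip hφ (hball x hx) (hball y hy)
    rw [← hE1] at h3
    have h4 : 0 ≤ ‖x - y‖ := norm_nonneg _
    have h5 : 8 * ‖t‖ * E1 ≤ 1 / 4 := by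
      have : 8 * ‖t‖ * E1 = 8 * (‖t‖ * E1) := by ring
      rw [this]
      linarith
    have h6 : ((1 / 2 : NNReal) : ℝ) = 1 / 2 := by norm_num
    rw [h6]
    calc ‖RR φ x - RR φ y‖ ≤ 8 * ‖t‖ * E1 * ‖x - y‖ := h3
      _ ≤ 1 / 4 * ‖x - y‖ := mul_le_mul_of_nonneg_right h5 h4
      _ = 1 / 2 * ‖x - y‖ * (1 / 2) := by ring
      _ ≤ 1 / 2 * ‖x - y‖ * ‖1 + t‖ := mul_le_mul_of_nonneg_left h1t (by positivity)
  obtain ⟨ρ, hρ, hfix, -⟩ := hcontr.exists_fixedPoint' (x := 1)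
    (Metric.isClosed_closedBall.isComplete) hmaps (Metric.mem_closedBall_self (by norm_num))
    (edist_ne_top _ _)
  have hfix' : f ρ = ρ := hfix
  refine ⟨ρ, ?_, ?_⟩
  · have := hf1 ρ hρ
    rwa [hfix'] at this
  · have h2 : HasSum (fun n => φ (n + 2) * ρ ^ (n + 2)) (RR φ ρ) :=
      (RR_hasSum hφ (hball ρ hρ)).hasSum
    have h3 := (hasSum_nat_add_iff (f := fun n => φ n * ρ ^ n) 2).1 h2
    have h4 : RR φ ρ + ∑ i ∈ range 2, φ i * ρ ^ i = 0 := by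
      rw [Finset.sum_range_succ, Finset.sum_range_one, hφ.p0, hφ.p1]
      rw [hf] at hfix'
      simp only at hfix'
      rw [div_eq_iff h1tne] at hfix'
      linear_combination hfix'
    rw [h4] at h3
    exact h3

end Pool.Agent.H379R2.Stk
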